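import Mathlib
import Pool.Agent.K6.H91.MP.Cbm

set_option autoImplicit false

/-!
# Transitive p-groups whose derangements have order p: centre-by-metabelian groups

Let `G` be a transitive `p`-group of permutations of a finite set, all of whose fixed-point-free elements
have order `p` (the hypothesis of the question of Mann and Praeger, with the words of the frozen
statement). For every odd prime `p`:

* if the second derived subgroup of `G` is contained in the centre of `G` then `G` has exponent `p`;
* more generally every `x ∈ G` with `[[x, G], G'] ≤ Z(G)` satisfies `x ^ p = 1`;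
* `v ^ p = 1` and `(v x) ^ p = x ^ p` for all `x ∈ G` and all `v ∈ G'` with `[v, G'] ≤ Z(G)`.

For every prime `p`: metabelian `G` have exponent `p`, and all abelian normal subgroups have exponent `p`.

Proof. Let `M` be a maximal subgroup which contains a point stabiliser; the elements outside of `M` have
no fixed points. Let `W` be the group of all `v ∈ G'` with `[v, G'] ≤ Z(G)`. The pairs `(a, b)`, `a, b ∈ W`,
`ab ∈ Z(G)`, modulo the pairs `(z, z)`, `z ∈ Z(G)`, form an abelian group `A` of exponent `p`, on which the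
norms of all elements outside of `M` vanish. The commutator subgroup acts on `A` by `a ↦ a + κ(a)` with
`κ(A)` fixed by `G`. A computation in the endomorphism ring of `A` shows that the norms of the elements `x`
of `M` vanish, too (`Rng.Dat.main`). So `(v x) ^ p = (v⁻¹ x) ^ p` for all `x ∈ G`, `v ∈ W`; with `v x` in
the place of `x` this is `(v² x) ^ p = x ^ p`. Hence `x ^ p` commutes with `y` if `[x, y] ∈ W`, and
`p`-th powers in the centre are trivial because they fix a point.
-/

namespace Pool.Agent.Results.MP_3dfad8_al.CentreByMetabelian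

open Pool.Agent.K6.H91.MP
open scoped commutatorElement

theorem result :
    ∀ (p : ℕ), p.Prime → ∀ (n : ℕ) (G : Subgroup (Equiv.Perm (Fin n))),
      MulAction.IsPretransitive G (Fin n) →
      IsPGroup p G →
      (∀ g : G, (∀ x : Fin n, g • x ≠ x) → orderOf g = p) →
      -- centre-by-metabelian groups
      (p ≠ 2 → (∀ w ∈ derivedSeries G 2, ∀ g : G, w * g = g * w) → ∀ g : G, g ^ p = 1) ∧
      -- elements `x` with `[[x, G], G'] ≤ Z(G)`
      (p ≠ 2 → ∀ x : G, (∀ y : G, ∀ w ∈ commutator G, ∀ g : G, ⁅⁅x, y⁆, w⁆ * g = g * ⁅⁅x, y⁆, w⁆) →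
        x ^ p = 1) ∧
      -- factors `v ∈ G'` with `[v, G'] ≤ Z(G)`
      (p ≠ 2 → ∀ v : G, v ∈ commutator G → (∀ w ∈ commutator G, ∀ g : G, ⁅v, w⁆ * g = g * ⁅v, w⁆) →
        v ^ p = 1 ∧ ∀ x : G, (v * x) ^ p = x ^ p) ∧
      -- metabelian groups, elements `x` with `[x, G] ≤ Z(G')`, factors in `Z(G')`, all primes
      (derivedSeries G 2 = ⊥ → ∀ g : G, g ^ p = 1) ∧
      (∀ x : G, (∀ y : G, ∀ w ∈ commutator G, ⁅x, y⁆ * w = w * ⁅x, y⁆) → x ^ p = 1) ∧
      (∀ x v : G, v ∈ commutator G → (∀ w ∈ commutator G, v * w = w * v) →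
        (v * x) ^ p = x ^ p) ∧
      -- abelian normal subgroups
      (∀ V : Subgroup G, V.Normal → (∀ x ∈ V, ∀ y ∈ V, x * y = y * x) → ∀ v ∈ V, v ^ p = 1) := by
  intro p hp n G htr hG hder
  haveI := htr
  have hs : Setting p G (Fin n) := ⟨hG, hder⟩
  have hcm : ∀ x y : G, ⁅x, y⁆ ∈ commutator G := fun x y =>
    Subgroup.commutator_mem_commutator (Subgroup.mem_top _) (Subgroup.mem_top _)
  have hw : ∀ v : G, v ∈ commutator G →
      (∀ w ∈ commutator G, ∀ g : G, ⁅v, w⁆ * g = g * ⁅v, w⁆) → v ∈ wder G := by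
    intro v hv h
    refine mem_wder.2 ⟨hv, fun u hu => ?_⟩
    have h1 : ⁅v, u⁆ ∈ Subgroup.center G := Subgroup.mem_center_iff.2 fun g => (h u hu g).symm
    have h2 := Subgroup.inv_mem _ h1
    rwa [commutatorElement_inv, commutatorElement_def] at h2
  refine ⟨fun hp2 hc g => near_center2 hp hp2 hs fun y => hw _ (hcm _ _) fun w hwD g' => ?_,
    fun hp2 x hx => near_center2 hp hp2 hs fun y => hw _ (hcm _ _) (hx y),
    fun hp2 v hv h => ⟨wder_exp hp hp2 hs v (hw v hv h), fun x => wder_pow hp hp2 hs x (hw v hv h)⟩,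
    fun hmet g => metabelian hp hs hmet g, fun x hx => near_center hp hs fun y =>
    mem_zder.2 ⟨hcm _ _, hx y⟩, fun x v hv hw => zder_pow hp hs x (mem_zder.2 ⟨hv, hw⟩),
    fun V hV hc => ?_⟩
  · refine hc _ ?_ g'
    rw [derivedSeries_succ, derivedSeries_one]
    exact Subgroup.commutator_mem_commutator (hcm _ _) hwD
  · haveI := hV
    exact abelian_exp hp hs V hc

end Pool.Agent.Results.MP_3dfad8_al.CentreByMetabelian
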